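import Mathlib

set_option autoImplicit false

/-! A diagram lemma: two four term sequences joined by the maps of `0 → N → F → L → 0`. -/

namespace Pool.Agent.TH488.HW

open Function

section Diagram

variable {B : Type*} [CommRing B]
variable {CN CF CL DN DF DL : Type*}
  [AddCommGroup CN] [Module B CN] [AddCommGroup CF] [Module B CF] [AddCommGroup CL] [Module B CL]
  [AddCommGroup DN] [Module B DN] [AddCommGroup DF] [Module B DF] [AddCommGroup DL] [Module B DL]

/-- The data of the diagram. -/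
structure Diag (ιC : CN →ₗ[B] CF) (πC : CF →ₗ[B] CL) (ιD : DN →ₗ[B] DF) (πD : DF →ₗ[B] DL)
    (γN : CN →ₗ[B] DN) (γF : CF →ₗ[B] DF) (γL : CL →ₗ[B] DL)
    (δN : DN →ₗ[B] DN) (δF : DF →ₗ[B] DF) (δL : DL →ₗ[B] DL)
    (μN : DN →ₗ[B] CN) (μF : DF →ₗ[B] CF) (μL : DL →ₗ[B] CL) : Prop where
  exC : Exact ιC πC
  exD : Exact ιD πD
  surjC : Surjective πC
  surjD : Surjective πD
  commγN : ∀ x, ιD (γN x) = γF (ιC x)
  commγL : ∀ x, πD (γF x) = γL (πC x)
  commδN : ∀ x, ιD (δN x) = δF (ιD x)
  commδL : ∀ x, πD (δF x) = δL (πD x)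
  commμN : ∀ x, ιC (μN x) = μF (ιD x)
  commμL : ∀ x, πC (μF x) = μL (πD x)
  exN : Exact δN μN
  exF : Exact γF δF
  injF : Injective γF
  μδF : ∀ x, μF (δF x) = 0
  exL : Exact δL μL
  surjL : Surjective μL
  δγN : ∀ x, δN (γN x) = 0
  δγL : ∀ x, δL (γL x) = 0

variable {ιC : CN →ₗ[B] CF} {πC : CF →ₗ[B] CL} {ιD : DN →ₗ[B] DF} {πD : DF →ₗ[B] DL}
    {γN : CN →ₗ[B] DN} {γF : CF →ₗ[B] DF} {γL : CL →ₗ[B] DL}
    {δN : DN →ₗ[B] DN} {δF : DF →ₗ[B] DF} {δL : DL →ₗ[B] DL}
    {μN : DN →ₗ[B] CN} {μF : DF →ₗ[B] CF} {μL : DL →ₗ[B] CL}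

namespace Diag

variable (h : Diag ιC πC ιD πD γN γF γL δN δF δL μN μF μL)

include h

theorem ker_δL (hinj : Injective ιC) (l : DL) (hl : δL l = 0) : ∃ c, γL c = l := by
  obtain ⟨f, rfl⟩ := h.surjD l
  rw [← h.commδL] at hl
  obtain ⟨n, hn⟩ := (h.exD _).1 hl
  have h1 : μN n = 0 := by
    apply hinj
    rw [h.commμN, hn, h.μδF, map_zero]
  obtain ⟨n', rfl⟩ := (h.exN _).1 h1
  have h2 : δF (f - ιD n') = 0 := by rw [map_sub, ← h.commδN, hn, sub_self]
  obtain ⟨c, hc⟩ := (h.exF _).1 h2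
  refine ⟨πC c, ?_⟩
  rw [← h.commγL, hc, map_sub, h.exD.apply_apply_eq_zero, sub_zero]

theorem injL [IsArtinian B DL] [IsNoetherian B DL] (hinj : Injective ιC) : Injective γL := by
  have hfin : Module.length B DL ≠ ⊤ := Module.length_ne_top
  have h1 : Module.length B DL =
      Module.length B (LinearMap.ker δL) + Module.length B (LinearMap.range δL) := by
    refine Module.length_eq_add_of_exact (LinearMap.ker δL).subtype δL.rangeRestrict
      (Submodule.subtype_injective _) (LinearMap.surjective_rangeRestrict _) ?_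
    intro y
    constructor
    · intro hy
      exact ⟨⟨y, by simpa using congrArg Subtype.val hy⟩, rfl⟩
    · rintro ⟨⟨z, hz⟩, rfl⟩
      exact Subtype.ext hz
  have h2 : Module.length B DL =
      Module.length B (LinearMap.range δL) + Module.length B CL := by
    refine Module.length_eq_add_of_exact (LinearMap.range δL).subtype μL
      (Submodule.subtype_injective _) h.surjL ?_
    intro y
    constructor
    · intro hy
      obtain ⟨z, hz⟩ := (h.exL _).1 hy
      exact ⟨⟨y, z, hz⟩, rfl⟩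
    · rintro ⟨⟨z, w, rfl⟩, rfl⟩
      exact h.exL.apply_apply_eq_zero w
  let α : CL →ₗ[B] LinearMap.ker δL := γL.codRestrict _ (fun c => h.δγL c)
  have hα : Surjective α := by
    rintro ⟨y, hy⟩
    obtain ⟨c, hc⟩ := h.ker_δL hinj y hy
    exact ⟨c, Subtype.ext hc⟩
  have h3 : Module.length B CL =
      Module.length B (LinearMap.ker α) + Module.length B (LinearMap.ker δL) := by
    refine Module.length_eq_add_of_exact (LinearMap.ker α).subtype α
      (Submodule.subtype_injective _) hα ?_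
    intro y
    constructor
    · intro hy
      exact ⟨⟨y, hy⟩, rfl⟩
    · rintro ⟨⟨z, hz⟩, rfl⟩
      exact hz
  have hr : Module.length B (LinearMap.range δL) ≠ ⊤ := by
    intro hr
    apply hfin
    rw [h1, hr, add_top]
  have hk : Module.length B (LinearMap.ker δL) ≠ ⊤ := by
    intro hr
    apply hfin
    rw [h1, hr, top_add]
  have h4 : Module.length B CL = Module.length B (LinearMap.ker δL) := by
    rw [h1, add_comm] at h2
    exact (ENat.add_right_injective_of_ne_top hr h2).symm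
  rw [h4] at h3
  have h5 : Module.length B (LinearMap.ker α) = 0 := by
    have : 0 + Module.length B (LinearMap.ker δL) =
        Module.length B (LinearMap.ker α) + Module.length B (LinearMap.ker δL) := by
      rw [zero_add]; exact h3
    exact (ENat.add_left_injective_of_ne_top hk this).symm
  rw [Module.length_eq_zero_iff] at h5
  intro x y hxy
  have hxy' : x - y ∈ LinearMap.ker α := by
    rw [LinearMap.mem_ker]
    apply Subtype.ext
    change γL (x - y) = 0
    rw [map_sub, hxy, sub_self]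
  have : (⟨x - y, hxy'⟩ : LinearMap.ker α) = 0 := Subsingleton.elim _ _
  have h6 : x - y = 0 := congrArg Subtype.val this
  exact sub_eq_zero.1 h6

/-- `δN` is surjective on the kernel of `ιD`. -/
theorem δ_surj [IsArtinian B DL] [IsNoetherian B DL] (hinj : Injective ιC) (t : DN)
    (ht : ιD t = 0) : ∃ t', ιD t' = 0 ∧ δN t' = t := by
  have h1 : μN t = 0 := by
    apply hinj
    rw [h.commμN, ht, map_zero, map_zero]
  obtain ⟨n, rfl⟩ := (h.exN _).1 h1
  rw [h.commδN] at ht
  obtain ⟨f, hf⟩ := (h.exF _).1 ht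
  have h2 : πC f = 0 := by
    apply h.injL hinj
    rw [← h.commγL, hf, h.exD.apply_apply_eq_zero, map_zero]
  obtain ⟨m, rfl⟩ := (h.exC _).1 h2
  refine ⟨n - γN m, ?_, ?_⟩
  · rw [map_sub, h.commγN, hf, sub_self]
  · rw [map_sub, h.δγN, sub_zero]

/-- If `δN` is nilpotent on the kernel of `ιD`, then `ιD` is injective. -/
theorem injD [IsArtinian B DL] [IsNoetherian B DL] (hinj : Injective ιC) (k : ℕ)
    (hk : ∀ t, ιD t = 0 → (δN ^ k) t = 0) : Injective ιD := by
  have key : ∀ (j : ℕ) (t : DN), ιD t = 0 → ∃ t', ιD t' = 0 ∧ (δN ^ j) t' = t := by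
    intro j
    induction j with
    | zero => intro t ht; exact ⟨t, ht, rfl⟩
    | succ j ih =>
      intro t ht
      obtain ⟨t1, h1, h2⟩ := ih t ht
      obtain ⟨t2, h3, h4⟩ := h.δ_surj hinj t1 h1
      refine ⟨t2, h3, ?_⟩
      rw [pow_succ, Module.End.mul_apply, h4, h2]
  rw [injective_iff_map_eq_zero]
  intro t ht
  obtain ⟨t', h1, h2⟩ := key k t ht
  rw [← h2, hk t' h1]

/-- The cokernel of `γN` is as torsion free as `DF`. -/
theorem coker_torsionFree [IsArtinian B DL] [IsNoetherian B DL] (hinj : Injective ιC)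
    (hinjD : Injective ιD) (b : B) (hb : ∀ y : DF, b • y = 0 → y = 0) (n : DN) (c : CN)
    (hc : b • n = γN c) : ∃ c', γN c' = n := by
  have h1 : b • δF (ιD n) = 0 := by
    rw [← map_smul, ← map_smul, hc, h.commγN, h.exF.apply_apply_eq_zero]
  obtain ⟨f, hf⟩ := (h.exF _).1 (hb _ h1)
  have h2 : πC f = 0 := by
    apply h.injL hinj
    rw [← h.commγL, hf, h.exD.apply_apply_eq_zero, map_zero]
  obtain ⟨m, rfl⟩ := (h.exC _).1 h2
  refine ⟨m, hinjD ?_⟩
  rw [h.commγN, hf]

theorem injN (hinj : Injective ιC) : Injective γN := by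
  intro x y hxy
  apply hinj
  apply h.injF
  rw [← h.commγN, ← h.commγN, hxy]

end Diag

end Diagram

end Pool.Agent.TH488.HW
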