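import Mathlib
import Pool.Agent.H578R3.TorMono
import Pool.Agent.TH488.HW.Diag

set_option autoImplicit false

/-! One monogenic step `A ⊆ B = A[X]/(p)`. -/

namespace Pool.Agent.TH488.HW

open Function TensorProduct Polynomial
open Pool.Agent.H578R3.TorRigid

section StepDiag

variable {A B : Type*} [CommRing A] [CommRing B] [Algebra A B] {p : A[X]}
variable (h : IsAdjoinRootMonic B p)
variable (M : Type*) [AddCommGroup M] [Module A M] [Module B M] [IsScalarTower A B M]
variable {N F L : Type*} [AddCommGroup N] [Module B N] [AddCommGroup F] [Module B F]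
  [AddCommGroup L] [Module B L]
variable (ι : N →ₗ[B] F) (π : F →ₗ[B] L)

theorem diag [Nontrivial B] (hπ : Surjective π) (hex : Exact ι π) [Module.Flat B F] :
    Diag (LinearMap.rTensor M ι) (LinearMap.rTensor M π)
      (LinearMap.rTensor (B ⊗[A] M) ι) (LinearMap.rTensor (B ⊗[A] M) π)
      (LinearMap.lTensor N (ΔE M h)) (LinearMap.lTensor F (ΔE M h)) (LinearMap.lTensor L (ΔE M h))
      (LinearMap.lTensor N (tE A M h.root)) (LinearMap.lTensor F (tE A M h.root))
      (LinearMap.lTensor L (tE A M h.root))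
      (LinearMap.lTensor N (eE (A := A) (B := B) M)) (LinearMap.lTensor F (eE (A := A) (B := B) M))
      (LinearMap.lTensor L (eE (A := A) (B := B) M)) where
  exC := rTensor_exact M hex hπ
  exD := rTensor_exact _ hex hπ
  surjC := LinearMap.rTensor_surjective M hπ
  surjD := LinearMap.rTensor_surjective _ hπ
  commγN x := by
    rw [← LinearMap.comp_apply, LinearMap.rTensor_comp_lTensor, ← LinearMap.lTensor_comp_rTensor,
      LinearMap.comp_apply]
  commγL x := by
    rw [← LinearMap.comp_apply, LinearMap.rTensor_comp_lTensor, ← LinearMap.lTensor_comp_rTensor,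
      LinearMap.comp_apply]
  commδN x := by
    rw [← LinearMap.comp_apply, LinearMap.rTensor_comp_lTensor, ← LinearMap.lTensor_comp_rTensor,
      LinearMap.comp_apply]
  commδL x := by
    rw [← LinearMap.comp_apply, LinearMap.rTensor_comp_lTensor, ← LinearMap.lTensor_comp_rTensor,
      LinearMap.comp_apply]
  commμN x := by
    rw [← LinearMap.comp_apply, LinearMap.rTensor_comp_lTensor, ← LinearMap.lTensor_comp_rTensor,
      LinearMap.comp_apply]
  commμL x := by
    rw [← LinearMap.comp_apply, LinearMap.rTensor_comp_lTensor, ← LinearMap.lTensor_comp_rTensor,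
      LinearMap.comp_apply]
  exN := lTensor_exact N (exact_te M h) (eE_surj M)
  exF := Module.Flat.lTensor_exact F (exact_Δt M h)
  injF := Module.Flat.lTensor_preserves_injective_linearMap _ (ΔE_inj M h)
  μδF x := (lTensor_exact F (exact_te M h) (eE_surj M)).apply_apply_eq_zero x
  exL := lTensor_exact L (exact_te M h) (eE_surj M)
  surjL := LinearMap.lTensor_surjective L (eE_surj M)
  δγN x := by
    rw [← LinearMap.comp_apply, ← LinearMap.lTensor_comp, (exact_Δt M h).linearMap_comp_eq_zero,
      LinearMap.lTensor_zero, LinearMap.zero_apply]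
  δγL x := by
    rw [← LinearMap.comp_apply, ← LinearMap.lTensor_comp, (exact_Δt M h).linearMap_comp_eq_zero,
      LinearMap.lTensor_zero, LinearMap.zero_apply]

theorem comm_sub_pow {Rg : Type*} [Ring Rg] (x y : Rg) (h : Commute x y) (q : ℕ)
    (hx : x ^ q = 0) (hy : y ^ q = 0) : (x - y) ^ (q + q) = 0 := by
  rw [sub_eq_add_neg]
  refine (h.neg_right).add_pow_eq_zero_of_add_le_succ_of_pow_eq_zero hx ?_ (Nat.le_succ _)
  rw [neg_pow, hy, mul_zero]

theorem nil_aux {R₀ E : Type*} [CommRing R₀] [AddCommGroup E] [Module R₀ E] (S T : Module.End R₀ E)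
    (hST : Commute S T) (K : Submodule R₀ E) (hS : ∀ t ∈ K, S t ∈ K) (hT : ∀ t ∈ K, T t ∈ K)
    (q : ℕ) (hSq : ∀ t ∈ K, (S ^ q) t = 0) (hTq : ∀ t ∈ K, (T ^ q) t = 0) :
    ∀ t ∈ K, ((S - T) ^ (q + q)) t = 0 := by
  intro t ht
  obtain ⟨S', hS'⟩ : ∃ S' : Module.End R₀ K, S' = S.restrict hS := ⟨_, rfl⟩
  obtain ⟨T', hT'⟩ : ∃ T' : Module.End R₀ K, T' = T.restrict hT := ⟨_, rfl⟩
  have eS : ∀ x : K, (S' x : E) = S x := fun x => by rw [hS']; rfl
  have eT : ∀ x : K, (T' x : E) = T x := fun x => by rw [hT']; rfl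
  have pS : ∀ (k : ℕ) (x : K), ((S' ^ k) x : E) = (S ^ k) x := by
    intro k
    induction k with
    | zero => intro x; rfl
    | succ k ih => intro x; rw [pow_succ, pow_succ, Module.End.mul_apply, Module.End.mul_apply,
        ih, eS]
  have pT : ∀ (k : ℕ) (x : K), ((T' ^ k) x : E) = (T ^ k) x := by
    intro k
    induction k with
    | zero => intro x; rfl
    | succ k ih => intro x; rw [pow_succ, pow_succ, Module.End.mul_apply, Module.End.mul_apply,
        ih, eT]
  have zS : S' ^ q = 0 := by
    apply LinearMap.ext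
    intro x
    exact Subtype.ext (by rw [pS]; exact hSq x x.2)
  have zT : T' ^ q = 0 := by
    apply LinearMap.ext
    intro x
    exact Subtype.ext (by rw [pT]; exact hTq x x.2)
  have hc : Commute S' T' := by
    apply LinearMap.ext
    intro x
    apply Subtype.ext
    rw [Module.End.mul_apply, Module.End.mul_apply, eS, eT, eT, eS]
    exact LinearMap.congr_fun hST.eq (x : E)
  have h1 : (S' - T') ^ (q + q) = 0 := comm_sub_pow S' T' hc q zS zT
  have h2 : ∀ (k : ℕ) (x : K), (((S' - T') ^ k) x : E) = ((S - T) ^ k) (x : E) := by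
    intro k
    induction k with
    | zero => intro x; rfl
    | succ k ih =>
      intro x
      rw [pow_succ, pow_succ, Module.End.mul_apply, Module.End.mul_apply, ih]
      congr 1
      change ((S' x - T' x : K) : E) = S x - T x
      rw [Submodule.coe_sub, eS, eT]
  have h3 := h2 (q + q) ⟨t, ht⟩
  rw [h1] at h3
  exact h3.symm

theorem lTensor_pow' {B₀ N₀ E₀ : Type*} [CommRing B₀] [AddCommGroup N₀] [Module B₀ N₀]
    [AddCommGroup E₀] [Module B₀ E₀] (T : Module.End B₀ E₀) (k : ℕ) :
    (LinearMap.lTensor N₀ T : Module.End B₀ (N₀ ⊗[B₀] E₀)) ^ k = LinearMap.lTensor N₀ (T ^ k) := by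
  induction k with
  | zero => rw [pow_zero, pow_zero, Module.End.one_eq_id, Module.End.one_eq_id,
      LinearMap.lTensor_id]
  | succ k ih => rw [pow_succ, pow_succ, ih, Module.End.mul_eq_comp, Module.End.mul_eq_comp,
      LinearMap.lTensor_comp]

/-- The difference of the two actions is nilpotent on the kernel of `ι ⊗ 1`. -/
theorem nilp (q : ℕ) (a : A) (UN : N →ₗ[B] N) (UM : M →ₗ[A] M)
    (hUN : ∀ n : N, h.root ^ q • n = algebraMap A B a • UN n)
    (hUM : ∀ m : M, h.root ^ q • m = a • UM m)
    (s : F →ₗ[B] N) (hs : ∀ n, s (ι n) = algebraMap A B a • n)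
    (t : N ⊗[B] (B ⊗[A] M)) (ht : LinearMap.rTensor (B ⊗[A] M) ι t = 0) :
    ((LinearMap.lTensor N (tE A M h.root)) ^ (q + q)) t = 0 := by
  have hkill : ∀ t : N ⊗[B] (B ⊗[A] M), t ∈ LinearMap.ker (LinearMap.rTensor (B ⊗[A] M) ι) →
      algebraMap A B a • t = 0 := by
    intro t ht
    have h1 : (LinearMap.rTensor (B ⊗[A] M) s) (LinearMap.rTensor (B ⊗[A] M) ι t) =
        algebraMap A B a • t := by
      rw [← LinearMap.comp_apply, ← LinearMap.rTensor_comp]
      have : s ∘ₗ ι = algebraMap A B a • LinearMap.id := LinearMap.ext hs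
      rw [this, LinearMap.rTensor_smul, LinearMap.rTensor_id]
      rfl
    rw [← h1, LinearMap.mem_ker.1 ht, map_zero]
  have hcomm : ∀ (T : Module.End B (B ⊗[A] M)) (t : N ⊗[B] (B ⊗[A] M)),
      t ∈ LinearMap.ker (LinearMap.rTensor (B ⊗[A] M) ι) →
      LinearMap.lTensor N T t ∈ LinearMap.ker (LinearMap.rTensor (B ⊗[A] M) ι) := by
    intro T t ht
    rw [LinearMap.mem_ker] at ht ⊢
    rw [← LinearMap.comp_apply, LinearMap.rTensor_comp_lTensor, ← LinearMap.lTensor_comp_rTensor,
      LinearMap.comp_apply, ht, map_zero]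
  have hsub : (LinearMap.lTensor N (tE A M h.root) : Module.End B (N ⊗[B] (B ⊗[A] M))) =
      LinearMap.lTensor N (XE A M h.root) - LinearMap.lTensor N (YE A M h.root) := by
    unfold tE
    rw [LinearMap.lTensor_sub]
  rw [hsub]
  refine nil_aux _ _ ?_ (LinearMap.ker (LinearMap.rTensor (B ⊗[A] M) ι))
    (hcomm _) (hcomm _) q ?_ ?_ t ht
  · change LinearMap.lTensor N (XE A M h.root) * LinearMap.lTensor N (YE A M h.root) =
      LinearMap.lTensor N (YE A M h.root) * LinearMap.lTensor N (XE A M h.root)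
    rw [Module.End.mul_eq_comp, Module.End.mul_eq_comp, ← LinearMap.lTensor_comp,
      ← LinearMap.lTensor_comp]
    congr 1
    exact (commXY (A := A) M h.root h.root).eq
  · intro t ht
    have h2 : (LinearMap.lTensor N (XE A M h.root)) ^ q =
        algebraMap A B a • LinearMap.rTensor (B ⊗[A] M) UN := by
      rw [lTensor_pow']
      apply TensorProduct.ext'
      intro n w
      rw [LinearMap.lTensor_tmul, XE_pow_apply, LinearMap.smul_apply, LinearMap.rTensor_tmul,
        TensorProduct.smul_tmul', ← hUN, TensorProduct.smul_tmul]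
    rw [h2, LinearMap.smul_apply, ← map_smul, hkill t ht, map_zero]
  · intro t ht
    have h2 : (LinearMap.lTensor N (YE A M h.root)) ^ q =
        algebraMap A B a • LinearMap.lTensor N (LinearMap.baseChange B UM) := by
      rw [lTensor_pow']
      have h3 : YE A M h.root ^ q = algebraMap A B a • LinearMap.baseChange B UM := by
        apply LinearMap.ext
        intro w
        induction w using TensorProduct.induction_on with
        | zero => simp
        | tmul b m =>
          rw [YE_pow_tmul, LinearMap.smul_apply, LinearMap.baseChange_tmul, hUM,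
            TensorProduct.tmul_smul, algebraMap_smul]
        | add a b ha hb => rw [map_add, map_add, ha, hb]
      rw [h3, LinearMap.lTensor_smul]
    rw [h2, LinearMap.smul_apply, ← map_smul, hkill t ht, map_zero]

/-- **Going down.** If `N ⊗[B] M → F ⊗[B] M` is injective, then so is `N ⊗[A] M → F ⊗[A] M`
(tensored up). -/
theorem step_down [Nontrivial B] (hπ : Surjective π) (hex : Exact ι π) [Module.Flat B F]
    [IsArtinian B (L ⊗[B] (B ⊗[A] M))] [IsNoetherian B (L ⊗[B] (B ⊗[A] M))]
    (q : ℕ) (a : A) (UN : N →ₗ[B] N) (UM : M →ₗ[A] M)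
    (hUN : ∀ n : N, h.root ^ q • n = algebraMap A B a • UN n)
    (hUM : ∀ m : M, h.root ^ q • m = a • UM m)
    (s : F →ₗ[B] N) (hs : ∀ n, s (ι n) = algebraMap A B a • n)
    (hinj : Injective (LinearMap.rTensor M ι)) :
    Injective (LinearMap.rTensor (B ⊗[A] M) ι) :=
  (diag h M ι π hπ hex).injD hinj (q + q) (fun t ht => nilp h M ι q a UN UM hUN hUM s hs t ht)

end StepDiag

end Pool.Agent.TH488.HW
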