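import Mathlib
import Pool.Agent.TH488.HW.Step

set_option autoImplicit false

/-! Going up: the retraction `B ⊗[A] M → M`. -/

namespace Pool.Agent.TH488.HW

open Function TensorProduct Polynomial
open Pool.Agent.H578R3.TorRigid

theorem projective_of_tf {V Q : Type*} [CommRing V] [IsDedekindDomain V] [AddCommGroup Q]
    [Module V Q] [Module.Finite V Q] (htf : ∀ (v : V) (y : Q), v • y = 0 → v = 0 ∨ y = 0) :
    Module.Projective V Q := by
  have h1 : Module.IsTorsionFree V Q := Module.isTorsionFree_iff_smul_eq_zero.2 htf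
  have h2 : Module.Flat V Q := inferInstance
  have h3 : Module.FinitePresentation V Q := Module.finitePresentation_of_finite V Q
  exact Module.Flat.projective_of_finitePresentation

theorem exists_retraction {V X Y : Type*} [CommRing V] [IsDedekindDomain V] [AddCommGroup X]
    [Module V X] [AddCommGroup Y] [Module V Y] [Module.Finite V Y] (γ : X →ₗ[V] Y)
    (hγ : Injective γ) (htf : ∀ (v : V) (y : Y), v ≠ 0 → v • y ∈ LinearMap.range γ →
      y ∈ LinearMap.range γ) : ∃ s : Y →ₗ[V] X, ∀ x, s (γ x) = x := by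
  have h3 : Module.Projective V (Y ⧸ LinearMap.range γ) := by
    apply projective_of_tf
    intro v y hy
    obtain ⟨y, rfl⟩ := Submodule.mkQ_surjective _ y
    by_cases hv : v = 0
    · exact Or.inl hv
    · right
      rw [← map_smul, Submodule.mkQ_apply, Submodule.Quotient.mk_eq_zero] at hy
      rw [Submodule.mkQ_apply, Submodule.Quotient.mk_eq_zero]
      exact htf v y hv hy
  obtain ⟨σ, hσ⟩ := Module.projective_lifting_property (LinearMap.range γ).mkQ
    (LinearMap.id : (Y ⧸ LinearMap.range γ) →ₗ[V] _) (Submodule.mkQ_surjective _)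
  -- `y - σ (mk y)` lies in the range
  let τ : Y →ₗ[V] Y := LinearMap.id - σ ∘ₗ (LinearMap.range γ).mkQ
  have hτ : ∀ y, τ y ∈ LinearMap.range γ := by
    intro y
    rw [← Submodule.Quotient.mk_eq_zero, ← Submodule.mkQ_apply]
    have := LinearMap.congr_fun hσ ((LinearMap.range γ).mkQ y)
    simp only [LinearMap.comp_apply, LinearMap.id_apply] at this
    simp only [τ, LinearMap.sub_apply, LinearMap.id_apply, LinearMap.comp_apply, map_sub]
    rw [this, sub_self]
  let e := LinearEquiv.ofInjective γ hγ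
  refine ⟨e.symm.toLinearMap ∘ₗ τ.codRestrict _ hτ, fun x => ?_⟩
  rw [LinearMap.comp_apply]
  apply e.injective
  rw [LinearEquiv.coe_coe, LinearEquiv.apply_symm_apply]
  apply Subtype.ext
  change τ (γ x) = γ x
  have : (LinearMap.range γ).mkQ (γ x) = 0 := by
    rw [Submodule.mkQ_apply, Submodule.Quotient.mk_eq_zero]
    exact ⟨x, rfl⟩
  simp only [τ, LinearMap.sub_apply, LinearMap.id_apply, LinearMap.comp_apply]
  rw [this, map_zero, sub_zero]

section Up

variable {V A B : Type*} [CommRing V] [IsDedekindDomain V] [CommRing A] [CommRing B]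
  [Algebra A B] [Algebra V B] {p : A[X]}
variable (h : IsAdjoinRootMonic B p)
variable (M : Type*) [AddCommGroup M] [Module A M] [Module B M] [IsScalarTower A B M]

variable {N F L : Type*} [AddCommGroup N] [Module B N] [AddCommGroup F] [Module B F]
  [AddCommGroup L] [Module B L] [Module V N] [IsScalarTower V B N]
variable (ι : N →ₗ[B] F) (π : F →ₗ[B] L)

/-- **Going up.** -/
theorem step_up [Nontrivial B] (hπ : Surjective π) (hex : Exact ι π) [Module.Flat B F]
    [IsArtinian B (L ⊗[B] (B ⊗[A] M))] [IsNoetherian B (L ⊗[B] (B ⊗[A] M))]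
    [Module.Finite V (N ⊗[B] (B ⊗[A] M))]
    (hinj : Injective (LinearMap.rTensor M ι))
    (hinjD : Injective (LinearMap.rTensor (B ⊗[A] M) ι))
    (htf : ∀ (v : V), v ≠ 0 → ∀ y : F ⊗[B] (B ⊗[A] M), algebraMap V B v • y = 0 → y = 0)
    (β : N →+ M →+ V)
    (hβV : ∀ (v : V) (n : N) (m : M), β (v • n) m = v * β n m)
    (hβ : ∀ (b : B) (n : N) (m : M), β (b • n) m = β n (b • m))
    (hperf : ∀ ψ : N →ₗ[V] V, ∃ m : M, ∀ n, ψ n = β n m)
    (hnd : ∀ m : M, (∀ n, β n m = 0) → m = 0) :
    ∃ ρ : B ⊗[A] M →ₗ[B] M, ∀ m, ρ (ΔE M h m) = m := by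
  have hd := diag h M ι π hπ hex
  -- the retraction over `V`
  obtain ⟨s, hs⟩ := exists_retraction (V := V)
    ((LinearMap.lTensor N (ΔE M h)).restrictScalars V) (hd.injN hinj) (by
      rintro v y hv ⟨c, hc⟩
      have hc' : algebraMap V B v • y = LinearMap.lTensor N (ΔE M h) c := by
        rw [algebraMap_smul]
        exact hc.symm
      obtain ⟨c', hc'⟩ := hd.coker_torsionFree hinj hinjD (algebraMap V B v) (htf v hv) y c hc'
      exact ⟨c', hc'⟩)
  -- the functional on `N ⊗[B] M`
  let θ₀ : N ⊗[B] M →+ V := TensorProduct.liftAddHom β hβ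
  have hθ₀ : ∀ n m, θ₀ (n ⊗ₜ m) = β n m := fun n m => rfl
  have hθ₀V : ∀ (v : V) (z : N ⊗[B] M), θ₀ (v • z) = v * θ₀ z := by
    intro v z
    induction z using TensorProduct.induction_on with
    | zero => simp
    | tmul n m => rw [TensorProduct.smul_tmul', hθ₀, hθ₀, hβV]
    | add x y hx hy => rw [smul_add, map_add, map_add, hx, hy, mul_add]
  let θ : N ⊗[B] (B ⊗[A] M) →ₗ[V] V :=
    { toFun := fun z => θ₀ (s z)
      map_add' := fun x y => by rw [map_add, map_add]
      map_smul' := fun v x => by rw [map_smul, hθ₀V]; rfl }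
  have hθ : ∀ z, θ (LinearMap.lTensor N (ΔE M h) z) = θ₀ z := by
    intro z
    change θ₀ (s _) = θ₀ z
    congr 1
    exact hs z
  -- the map `φ`
  have hφ : ∀ m : M, ∃ m' : M, ∀ n, θ (n ⊗ₜ ((1 : B) ⊗ₜ[A] m)) = β n m' := by
    intro m
    exact hperf
      { toFun := fun n => θ (n ⊗ₜ ((1 : B) ⊗ₜ[A] m))
        map_add' := fun x y => by rw [TensorProduct.add_tmul, map_add]
        map_smul' := fun v x => by
          rw [← TensorProduct.smul_tmul', map_smul]; rfl }
  choose φ hφ using hφ
  have huniq : ∀ m m' : M, (∀ n, β n m = β n m') → m = m' := by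
    intro m m' hmm
    rw [← sub_eq_zero]
    apply hnd
    intro n
    rw [map_sub, hmm, sub_self]
  let φl : M →ₗ[A] M :=
    { toFun := φ
      map_add' := by
        intro x y
        apply huniq
        intro n
        rw [map_add, ← hφ, ← hφ, ← hφ, TensorProduct.tmul_add, TensorProduct.tmul_add, map_add]
      map_smul' := by
        intro a x
        apply huniq
        intro n
        rw [← hφ, RingHom.id_apply, ← algebraMap_smul B a (φ x), ← hβ, ← hφ,
          TensorProduct.tmul_smul a (1 : B) x, ← algebraMap_smul B a ((1 : B) ⊗ₜ[A] x),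
          TensorProduct.smul_tmul] }
  let ρ : B ⊗[A] M →ₗ[B] M := eE M ∘ₗ LinearMap.baseChange B φl
  have hρ : ∀ (b : B) (m : M), ρ (b ⊗ₜ m) = b • φ m := by
    intro b m
    change eE M (LinearMap.baseChange B φl (b ⊗ₜ m)) = _
    rw [LinearMap.baseChange_tmul, eE_tmul]
    rfl
  have hkey : ∀ (n : N) (w : B ⊗[A] M), β n (ρ w) = θ (n ⊗ₜ w) := by
    intro n w
    induction w using TensorProduct.induction_on with
    | zero => rw [map_zero, map_zero, TensorProduct.tmul_zero, map_zero]
    | tmul b m =>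
      rw [hρ, ← hβ, ← hφ, TensorProduct.smul_tmul, TensorProduct.smul_tmul', smul_eq_mul, mul_one]
    | add x y hx hy => rw [map_add, map_add, hx, hy, TensorProduct.tmul_add, map_add]
  refine ⟨ρ, fun m => huniq _ _ fun n => ?_⟩
  rw [hkey, ← LinearMap.lTensor_tmul, hθ, hθ₀]

end Up

end Pool.Agent.TH488.HW
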