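import Mathlib
import Pool.Agent.H578R3.TorNil
import Pool.Agent.TH488.HW.Up

set_option autoImplicit false

/-! The induction along a tower of monogenic extensions. -/

namespace Pool.Agent.TH488.HW

open Function TensorProduct Polynomial
open Pool.Agent.H578R3.TorRigid

universe u

set_option linter.unusedSectionVars false
set_option linter.style.haveILetI false

section Cancel

variable {A B : Type*} [CommRing A] [CommRing B] [Algebra A B]
variable (M : Type*) [AddCommGroup M] [Module A M]
variable {N F : Type*} [AddCommGroup N] [Module B N] [Module A N] [IsScalarTower A B N]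
  [AddCommGroup F] [Module B F] [Module A F] [IsScalarTower A B F]
variable (ι : N →ₗ[B] F)

theorem cancel_comm' (z : N ⊗[B] (B ⊗[A] M)) :
    TensorProduct.AlgebraTensorModule.cancelBaseChange A B B F M
      (LinearMap.rTensor (B ⊗[A] M) ι z) =
    LinearMap.rTensor M (ι.restrictScalars A)
      (TensorProduct.AlgebraTensorModule.cancelBaseChange A B B N M z) := by
  induction z using TensorProduct.induction_on with
  | zero => simp
  | tmul x w =>
    induction w using TensorProduct.induction_on with
    | zero => simp
    | tmul b m =>
      rw [LinearMap.rTensor_tmul, TensorProduct.AlgebraTensorModule.cancelBaseChange_tmul,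
        TensorProduct.AlgebraTensorModule.cancelBaseChange_tmul, LinearMap.rTensor_tmul,
        LinearMap.restrictScalars_apply, map_smul]
    | add a b ha hb =>
      rw [TensorProduct.tmul_add, map_add, map_add, map_add, map_add, ha, hb]
  | add a b ha hb => rw [map_add, map_add, map_add, map_add, ha, hb]

theorem inj_cancel : Injective (LinearMap.rTensor (B ⊗[A] M) ι) ↔
    Injective (LinearMap.rTensor M (ι.restrictScalars A)) := by
  constructor
  · intro hinj
    rw [injective_iff_map_eq_zero]
    intro z hz
    obtain ⟨w, rfl⟩ :=
      (TensorProduct.AlgebraTensorModule.cancelBaseChange A B B N M).surjective z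
    rw [← cancel_comm'] at hz
    have h1 := (LinearEquiv.map_eq_zero_iff _).1 hz
    rw [(injective_iff_map_eq_zero _).1 hinj w h1, map_zero]
  · intro hinj
    rw [injective_iff_map_eq_zero]
    intro z hz
    apply (TensorProduct.AlgebraTensorModule.cancelBaseChange A B B N M).injective
    apply hinj
    rw [← cancel_comm', hz, map_zero, map_zero, map_zero]

end Cancel

section Chain

variable {R : Type u} [CommRing R] [IsLocalRing R]
variable {M N F L : Type*} [AddCommGroup M] [Module R M] [AddCommGroup N] [Module R N]
  [AddCommGroup F] [Module R F] [AddCommGroup L] [Module R L]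
variable (ι : N →ₗ[R] F) (π : F →ₗ[R] L) (V : Subring R)

theorem chain [IsDedekindDomain V] (hπ : Surjective π) (hex : Exact ι π) [Module.Projective R F]
    [Module.Finite V R] [Module.Finite R M] [Module.Finite R N] [Module.Finite R L]
    (a : V) (ha : ∀ l : L, a • l = 0) (haart : IsArtinianRing (V ⧸ Ideal.span {a}))
    (hnil : ∀ x ∈ IsLocalRing.maximalIdeal R, ∃ (q : ℕ) (r : R), x ^ q = a * r)
    (s : F →ₗ[R] N) (hs : ∀ n, s (ι n) = (a : R) • n)
    (htfM : ∀ (v : V), v ≠ 0 → ∀ m : M, v • m = 0 → m = 0)
    (β : N →+ M →+ V)
    (hβV : ∀ (v : V) (n : N) (m : M), β (v • n) m = v * β n m)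
    (hβ : ∀ (b : R) (n : N) (m : M), β (b • n) m = β n (b • m))
    (hperf : ∀ ψ : N →ₗ[V] V, ∃ m : M, ∀ n, ψ n = β n m)
    (hnd : ∀ m : M, (∀ n, β n m = 0) → m = 0)
    (B : Subring R) (hchain : Relation.ReflTransGen (MonoStep R) B ⊤) (hVB : V ≤ B) :
    Module.Projective B R ∧ Module.Finite B R ∧
      ((Injective (LinearMap.rTensor M (ι.restrictScalars B)) → Module.Projective B M) →
        (Injective (LinearMap.rTensor M (ι.restrictScalars (⊤ : Subring R))) →
          Module.Projective (⊤ : Subring R) M)) := by
  induction hchain using Relation.ReflTransGen.head_induction_on with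
  | refl =>
    refine ⟨?_, ?_, fun h => h⟩
    · let e : (⊤ : Subring R) ≃ₗ[(⊤ : Subring R)] R :=
        { toFun := fun r => (r : R)
          map_add' := fun _ _ => rfl
          map_smul' := fun _ _ => rfl
          invFun := fun r => ⟨r, trivial⟩
          left_inv := fun _ => rfl
          right_inv := fun _ => rfl }
      exact Module.Projective.of_equiv e
    · let e : (⊤ : Subring R) ≃ₗ[(⊤ : Subring R)] R :=
        { toFun := fun r => (r : R)
          map_add' := fun _ _ => rfl
          map_smul' := fun _ _ => rfl
          invFun := fun r => ⟨r, trivial⟩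
          left_inv := fun _ => rfl
          right_inv := fun _ => rfl }
      exact Module.Finite.equiv e
  | @head A B hstep hrest ih =>
    have hAB : A ≤ B := hstep.le
    obtain ⟨ihproj, ihfin, ihrig⟩ := ih (hVB.trans hAB)
    obtain ⟨x, p, hxm, hp, hB, hker⟩ := hstep
    letI := algSub hAB
    obtain ⟨h, hroot⟩ := exists_adjoin hAB x p hp hB hker
    haveI : IsScalarTower A B R := towerSub hAB R
    have hfreeAB : Module.Free A B := Module.Free.of_basis h.basis
    have hfinAB : Module.Finite A B := h.finite
    have hfinAR : Module.Finite A R := Module.Finite.trans B R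
    have hprojAR : Module.Projective A R := by
      exact proj_trans A B R
    refine ⟨hprojAR, hfinAR, fun hA => ihrig ?_⟩
    intro hinj
    haveI : IsScalarTower A B M := towerSub hAB M
    haveI : IsScalarTower A B N := towerSub hAB N
    haveI : IsScalarTower A B F := towerSub hAB F
    haveI : Module.Finite A M := Module.Finite.trans R M
    haveI : Module.Finite B N := Module.Finite.trans R N
    haveI : Module.Finite B L := Module.Finite.trans R L
    haveI : Module.Projective B F := proj_trans' B R F
    letI : Algebra V B := algSub (hVB.trans hAB)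
    haveI : IsScalarTower V B R := towerSub (hVB.trans hAB) R
    haveI : IsScalarTower V B N := towerSub (hVB.trans hAB) N
    haveI : IsScalarTower V B L := towerSub (hVB.trans hAB) L
    haveI : Module.Finite V B := by
      let j : B →ₗ[V] R :=
        { toFun := fun b => (b : R)
          map_add' := fun _ _ => rfl
          map_smul' := fun _ _ => rfl }
      exact Module.Finite.of_injective j Subtype.val_injective
    haveI : Module.Finite B (L ⊗[B] (B ⊗[A] M)) := inferInstance
    haveI : Module.Finite V (L ⊗[B] (B ⊗[A] M)) := Module.Finite.trans B _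
    haveI : Module.Finite V (N ⊗[B] (B ⊗[A] M)) := Module.Finite.trans B _
    have hkill : ∀ z : L ⊗[B] (B ⊗[A] M), a • z = 0 := by
      intro z
      induction z using TensorProduct.induction_on with
      | zero => exact smul_zero _
      | tmul l w => rw [TensorProduct.smul_tmul', ha, TensorProduct.zero_tmul]
      | add y z hy hz => rw [smul_add, hy, hz, add_zero]
    haveI : IsArtinian V (L ⊗[B] (B ⊗[A] M)) := artinian_of_killed V _ a hkill
    haveI : IsNoetherian V (L ⊗[B] (B ⊗[A] M)) := inferInstance
    haveI : IsArtinian B (L ⊗[B] (B ⊗[A] M)) := isArtinian_of_tower V inferInstance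
    haveI : IsNoetherian B (L ⊗[B] (B ⊗[A] M)) := isNoetherian_of_tower V inferInstance
    obtain ⟨q, r, hq⟩ := hnil x hxm
    let UN : N →ₗ[B] N :=
      { toFun := fun m => r • m
        map_add' := smul_add r
        map_smul' := fun a m => by
          change r • (a : R) • m = (a : R) • r • m
          exact smul_comm _ _ _ }
    let UM : M →ₗ[A] M :=
      { toFun := fun m => r • m
        map_add' := smul_add r
        map_smul' := fun a m => by
          change r • (a : R) • m = (a : R) • r • m
          exact smul_comm _ _ _ }
    have hinjD : Injective (LinearMap.rTensor (B ⊗[A] M) (ι.restrictScalars B)) := by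
      refine step_down h M (ι.restrictScalars B) (π.restrictScalars B) hπ hex q ⟨a, hVB a.2⟩
        UN UM ?_ ?_ (s.restrictScalars B) ?_ hinj
      · intro n
        change ((h.root ^ q : B) : R) • n = (a : R) • r • n
        rw [SubmonoidClass.coe_pow, hroot, hq, mul_smul]
      · intro m
        change ((h.root ^ q : B) : R) • m = (a : R) • r • m
        rw [SubmonoidClass.coe_pow, hroot, hq, mul_smul]
      · intro n
        exact hs n
    have hinjA : Injective (LinearMap.rTensor M (ι.restrictScalars A)) :=
      (inj_cancel M (ι.restrictScalars B)).1 hinjD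
    haveI : Module.Projective A M := hA hinjA
    -- torsion freeness
    have htf : ∀ (v : V), v ≠ 0 → ∀ y : F ⊗[B] (B ⊗[A] M), algebraMap V B v • y = 0 → y = 0 := by
      intro v hv
      let vA : A := ⟨v, hVB v.2⟩
      let μ : M →ₗ[A] M := LinearMap.lsmul A M vA
      have hμ : Injective μ := by
        rw [injective_iff_map_eq_zero]
        intro m hm
        exact htfM v hv m hm
      have h1 : Injective (LinearMap.baseChange B μ) :=
        Module.Flat.lTensor_preserves_injective_linearMap (M := B) μ hμ
      have h2 : Injective (LinearMap.lTensor F (LinearMap.baseChange B μ)) :=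
        Module.Flat.lTensor_preserves_injective_linearMap (M := F) _ h1
      have h3 : LinearMap.baseChange B μ = algebraMap V B v • LinearMap.id := by
        apply LinearMap.ext
        intro w
        induction w using TensorProduct.induction_on with
        | zero => simp
        | tmul b m =>
          rw [LinearMap.baseChange_tmul, LinearMap.smul_apply, LinearMap.id_apply]
          change b ⊗ₜ[A] (vA • m) = _
          rw [TensorProduct.tmul_smul, TensorProduct.smul_tmul', TensorProduct.smul_tmul']
          rfl
        | add a b ha hb => rw [map_add, map_add, ha, hb]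
      have h4 : LinearMap.lTensor F (LinearMap.baseChange B μ) = algebraMap V B v • LinearMap.id := by
        rw [h3, LinearMap.lTensor_smul, LinearMap.lTensor_id]
      intro y hy
      apply h2
      rw [h4, LinearMap.smul_apply, LinearMap.id_apply, hy, map_zero]
    obtain ⟨ρ, hρ⟩ := step_up (V := V) h M (ι.restrictScalars B) (π.restrictScalars B) hπ hex hinj
      hinjD htf β hβV (fun b n m => hβ b n m) hperf hnd
    exact Module.Projective.of_split (ΔE M h) ρ (LinearMap.ext hρ)

end Chain

end Pool.Agent.TH488.HW
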