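import Mathlib
import Pool.Agent.TH488.HW.Chain

set_option autoImplicit false

/-! The Frobenius form of a tower of monogenic extensions. -/

namespace Pool.Agent.TH488.HW

open Function TensorProduct Polynomial
open Pool.Agent.H578R3.TorRigid

universe u

set_option linter.unusedSectionVars false
set_option linter.style.haveILetI false

section One

theorem mono_frob {A B : Type*} [CommRing A] [CommRing B] [Algebra A B] {p : A[X]}
    (h : IsAdjoinRootMonic B p) [Nontrivial B] : ∃ l : B →ₗ[A] A,
    (∀ φ : B →ₗ[A] A, ∃ b : B, ∀ c, φ c = l (b * c)) ∧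
      (∀ b : B, (∀ c, l (b * c) = 0) → b = 0) := by
  have hn : 0 < p.natDegree := h.deg_pos
  let i : Fin p.natDegree := ⟨p.natDegree - 1, by omega⟩
  have hi : (i : ℕ) + 1 = p.natDegree := by simp [i]; omega
  let l : B →ₗ[A] A := h.basis.coord i
  have hl : ∀ b, l b = h.basis.repr b i := fun b => rfl
  have hco : ∀ b : B, co B h i (ΔE B h b) = b := co_ΔE B h i hi
  have hΔ : ∀ b : B, ΔE B h b = b • ΔE B h 1 := by
    intro b
    rw [← map_smul, smul_eq_mul, mul_one]
  refine ⟨l, fun φ => ?_, fun b hb => ?_⟩
  · let Φ : B ⊗[A] B →ₗ[A] B := (TensorProduct.rid A B).toLinearMap ∘ₗ LinearMap.lTensor B φ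
    have hΦ : ∀ x y : B, Φ (x ⊗ₜ y) = φ y • x := by
      intro x y
      simp [Φ]
    have key : ∀ (c : B) (w : B ⊗[A] B), l (c * Φ w) = φ (co B h i (c • w)) := by
      intro c w
      induction w using TensorProduct.induction_on with
      | zero => simp
      | tmul x y =>
        rw [hΦ, TensorProduct.smul_tmul', co_tmul, map_smul, mul_smul_comm, map_smul, hl,
          smul_eq_mul, smul_eq_mul, smul_eq_mul, mul_comm]
      | add x y hx hy => rw [map_add, mul_add, map_add, hx, hy, smul_add, map_add, map_add]
    refine ⟨Φ (ΔE B h 1), fun c => ?_⟩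
    rw [mul_comm, key, ← hΔ, hco]
  · have key : ∀ w : B ⊗[A] B, co B h i (b • w) = 0 := by
      intro w
      induction w using TensorProduct.induction_on with
      | zero => simp
      | tmul x y =>
        rw [TensorProduct.smul_tmul', co_tmul, smul_eq_mul, ← hl, hb, zero_smul]
      | add x y hx hy => rw [smul_add, map_add, hx, hy, add_zero]
    rw [← hco b, hΔ, key]

end One

section Tower

variable {R : Type u} [CommRing R] [IsLocalRing R]

theorem chain_frob (B : Subring R) (hchain : Relation.ReflTransGen (MonoStep R) B ⊤) :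
    ∃ l : R →ₗ[B] B,
    (∀ φ : R →ₗ[B] B, ∃ r : R, ∀ s, φ s = l (r * s)) ∧
      (∀ r : R, (∀ s, l (r * s) = 0) → r = 0) := by
  induction hchain using Relation.ReflTransGen.head_induction_on with
  | refl =>
    refine ⟨{ toFun := fun r => ⟨r, trivial⟩, map_add' := fun _ _ => rfl,
              map_smul' := fun _ _ => rfl }, fun φ => ⟨(φ 1 : (⊤ : Subring R)), fun s => ?_⟩,
              fun r hr => ?_⟩
    · have h1 : φ s = (⟨s, trivial⟩ : (⊤ : Subring R)) • φ 1 := by
        rw [← map_smul]
        congr 1
        change s = s * 1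
        rw [mul_one]
      rw [h1]
      apply Subtype.ext
      change s * ((φ 1 : (⊤ : Subring R)) : R) = ((φ 1 : (⊤ : Subring R)) : R) * s
      rw [mul_comm]
    · have := congrArg Subtype.val (hr 1)
      simpa using this
  | @head A B hstep hrest ih =>
    have hAB : A ≤ B := hstep.le
    obtain ⟨lB, hs, hn⟩ := ih
    obtain ⟨x, p, hxm, hp, hB, hker⟩ := hstep
    letI := algSub hAB
    obtain ⟨h, hroot⟩ := exists_adjoin hAB x p hp hB hker
    haveI : IsScalarTower A B R := towerSub hAB R
    obtain ⟨l, hls, hln⟩ := mono_frob h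
    refine ⟨l ∘ₗ lB.restrictScalars A, fun φ => ?_, fun r hr => ?_⟩
    · have h1 : ∀ s : R, ∃ y : B, ∀ b : B, φ (b • s) = l (y * b) := by
        intro s
        obtain ⟨y, hy⟩ := hls (φ ∘ₗ ((LinearMap.toSpanSingleton B R s).restrictScalars A))
        exact ⟨y, hy⟩
      choose ψ hψ using h1
      have huniq : ∀ y y' : B, (∀ b, l (y * b) = l (y' * b)) → y = y' := by
        intro y y' hyy
        rw [← sub_eq_zero]
        apply hln
        intro c
        rw [sub_mul, map_sub, hyy, sub_self]
      let ψl : R →ₗ[B] B :=
        { toFun := ψ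
          map_add' := by
            intro s t
            apply huniq
            intro b
            rw [← hψ, smul_add, map_add, hψ, hψ, add_mul, map_add]
          map_smul' := by
            intro b' s
            apply huniq
            intro b
            rw [← hψ, smul_smul, hψ, RingHom.id_apply, smul_eq_mul]
            congr 1
            ring }
      obtain ⟨r, hr⟩ := hs ψl
      refine ⟨r, fun s => ?_⟩
      have h2 := hψ s 1
      rw [one_smul, mul_one] at h2
      rw [h2]
      change l (ψl s) = l (lB (r * s))
      rw [hr]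
    · apply hn
      intro s
      apply hln
      intro c
      have h3 : lB (r * s) * c = lB (r * (c • s)) := by
        rw [mul_smul_comm, map_smul, smul_eq_mul, mul_comm]
      rw [h3]
      exact hr (c • s)

end Tower

end Pool.Agent.TH488.HW
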