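import Mathlib
import Pool.Agent.TH488.HW.Frob

set_option autoImplicit false

/-! Embedding a torsion free module in a free module of the same rank. -/

namespace Pool.Agent.TH488.HW

open Function TensorProduct

theorem exists_embedding {R N : Type*} [CommRing R] [IsDomain R] [AddCommGroup N] [Module R N]
    [Module.Finite R N] (htf : ∀ (r : R) (n : N), r • n = 0 → r = 0 ∨ n = 0) :
    ∃ (ι' : Type) (_ : Fintype ι') (f : N →ₗ[R] (ι' → R)) (s : (ι' → R) →ₗ[R] N) (a : R), a ≠ 0 ∧
      (∀ n, s (f n) = a • n) ∧ (∀ y, f (s y) = a • y) ∧ Injective f := by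
  classical
  obtain ⟨k, g, hg⟩ := Module.Finite.exists_fin (R := R) (M := N)
  obtain ⟨S, hS, hmax⟩ := exists_maximal_linearIndepOn R g
  have hfin : Fintype S := Fintype.ofFinite S
  let b := Module.Basis.span (R := R) (v := fun i : S => g i) hS
  -- a common multiple
  have h1 : ∀ i, ∃ a : R, a ≠ 0 ∧ a • g i ∈ Submodule.span R (Set.range fun i : S => g i) := by
    intro i
    by_cases hi : i ∈ S
    · refine ⟨1, one_ne_zero, ?_⟩
      rw [one_smul]
      exact Submodule.subset_span ⟨⟨i, hi⟩, rfl⟩
    · obtain ⟨a, ha, hmem⟩ := hmax i hi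
      refine ⟨a, ha, ?_⟩
      have himg : (Set.range fun i : S => g i) = g '' S := by
        ext x
        constructor
        · rintro ⟨j, rfl⟩
          exact ⟨j, j.2, rfl⟩
        · rintro ⟨j, hj, rfl⟩
          exact ⟨⟨j, hj⟩, rfl⟩
      rw [himg]
      exact hmem
  choose c hc0 hc using h1
  let a : R := ∏ i, c i
  have ha0 : a ≠ 0 := Finset.prod_ne_zero_iff.2 fun i _ => hc0 i
  have ha : ∀ n : N, a • n ∈ Submodule.span R (Set.range fun i : S => g i) := by
    intro n
    have hn : n ∈ Submodule.span R (Set.range g) := by rw [hg]; trivial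
    induction hn using Submodule.span_induction with
    | mem x hx =>
      obtain ⟨i, rfl⟩ := hx
      have : a = (∏ j ∈ Finset.univ.erase i, c j) * c i :=
        (Finset.prod_erase_mul _ _ (Finset.mem_univ i)).symm
      rw [this, mul_smul]
      exact Submodule.smul_mem _ _ (hc i)
    | zero => rw [smul_zero]; exact Submodule.zero_mem _
    | add x y _ _ hx hy => rw [smul_add]; exact Submodule.add_mem _ hx hy
    | smul r x _ hx => rw [smul_comm]; exact Submodule.smul_mem _ _ hx
  let m : N →ₗ[R] Submodule.span R (Set.range fun i : S => g i) :=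
    (LinearMap.lsmul R N a).codRestrict _ ha
  let f : N →ₗ[R] (S → R) := b.equivFun.toLinearMap ∘ₗ m
  let s : (S → R) →ₗ[R] N := (Submodule.subtype _) ∘ₗ b.equivFun.symm.toLinearMap
  refine ⟨S, inferInstance, f, s, a, ha0, fun n => ?_, fun y => ?_, ?_⟩
  · change ((b.equivFun.symm (b.equivFun (m n)) : Submodule.span R _) : N) = a • n
    rw [LinearEquiv.symm_apply_apply]
    rfl
  · change b.equivFun (m ((b.equivFun.symm y : Submodule.span R _) : N)) = a • y
    have : m ((b.equivFun.symm y : Submodule.span R (Set.range fun i : S => g i)) : N) =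
        a • b.equivFun.symm y := Subtype.ext rfl
    rw [this, map_smul, LinearEquiv.apply_symm_apply]
  · rw [injective_iff_map_eq_zero]
    intro n hn
    have h2 : m n = 0 := b.equivFun.injective (by rw [map_zero]; exact hn)
    have h3 : a • n = 0 := congrArg Subtype.val h2
    exact (htf a n h3).resolve_left ha0

end Pool.Agent.TH488.HW
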