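import Mathlib
import Pool.Agent.TH488.HW.Emb
import Pool.Agent.H578R3.TorFinal

set_option autoImplicit false

/-! The Huneke–Wiegand property for towers of monogenic extensions. -/

namespace Pool.Agent.TH488.HW

open Function TensorProduct
open Pool.Agent.H578R3.TorRigid

universe u v

set_option linter.unusedSectionVars false
set_option linter.style.haveILetI false

section Top

variable {R : Type u} [CommRing R] {N F M : Type*} [AddCommGroup N] [Module R N]
  [AddCommGroup F] [Module R F] [AddCommGroup M] [Module R M]

theorem top_compare (R : Type u) [CommRing R] (M : Type*) [AddCommGroup M] [Module R M] (Q : Type*) [AddCommGroup Q]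
    [Module R Q] :
    ∃ c : Q ⊗[(⊤ : Subring R)] M →+ Q ⊗[R] M, (∀ q m, c (q ⊗ₜ m) = q ⊗ₜ m) ∧ Injective c := by
    let c : Q ⊗[(⊤ : Subring R)] M →+ Q ⊗[R] M := TensorProduct.liftAddHom
      { toFun := fun q =>
          { toFun := fun m => q ⊗ₜ[R] m
            map_zero' := TensorProduct.tmul_zero _ _
            map_add' := fun x y => TensorProduct.tmul_add _ _ _ }
        map_zero' := by ext m; exact TensorProduct.zero_tmul _ _
        map_add' := fun x y => by ext m; exact TensorProduct.add_tmul _ _ _ }
      (fun r q m => TensorProduct.smul_tmul (r : R) q m)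
    let d : Q ⊗[R] M →+ Q ⊗[(⊤ : Subring R)] M := TensorProduct.liftAddHom
      { toFun := fun q =>
          { toFun := fun m => q ⊗ₜ[(⊤ : Subring R)] m
            map_zero' := TensorProduct.tmul_zero _ _
            map_add' := fun x y => TensorProduct.tmul_add _ _ _ }
        map_zero' := by ext m; exact TensorProduct.zero_tmul _ _
        map_add' := fun x y => by ext m; exact TensorProduct.add_tmul _ _ _ }
      (fun r q m => TensorProduct.smul_tmul (⟨r, trivial⟩ : (⊤ : Subring R)) q m)
    refine ⟨c, fun q m => rfl, ?_⟩
    have hdc : ∀ z, d (c z) = z := by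
      intro z
      induction z using TensorProduct.induction_on with
      | zero => rw [map_zero, map_zero]
      | tmul q m => rfl
      | add x y hx hy => rw [map_add, map_add, hx, hy]
    exact LeftInverse.injective hdc

theorem inj_top (ι : N →ₗ[R] F) (h : Injective (LinearMap.rTensor M ι)) :
    Injective (LinearMap.rTensor M (ι.restrictScalars (⊤ : Subring R))) := by
  obtain ⟨cN, hcN, hiN⟩ := top_compare R M N
  obtain ⟨cF, hcF, -⟩ := top_compare R M F
  have hcomm : ∀ z, cF (LinearMap.rTensor M (ι.restrictScalars (⊤ : Subring R)) z) =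
      LinearMap.rTensor M ι (cN z) := by
    intro z
    induction z using TensorProduct.induction_on with
    | zero => simp only [map_zero]
    | tmul q m => rw [LinearMap.rTensor_tmul, hcN, LinearMap.rTensor_tmul, hcF]; rfl
    | add x y hx hy => simp only [map_add, hx, hy]
  intro x y hxy
  apply hiN
  apply h
  rw [← hcomm, ← hcomm, hxy]

theorem proj_top (h : Module.Projective (⊤ : Subring R) M) : Module.Projective R M := by
  obtain ⟨s, hs⟩ := Module.projective_lifting_property
    ((Finsupp.linearCombination R (id : M → M)).restrictScalars (⊤ : Subring R))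
    (LinearMap.id : M →ₗ[(⊤ : Subring R)] M) (Finsupp.linearCombination_id_surjective R M)
  let s' : M →ₗ[R] (M →₀ R) :=
    { toFun := s
      map_add' := map_add s
      map_smul' := fun r m => s.map_smul (⟨r, trivial⟩ : (⊤ : Subring R)) m }
  exact Module.Projective.of_split s' (Finsupp.linearCombination R (id : M → M))
    (LinearMap.ext fun x => LinearMap.congr_fun hs x)

end Top

section Main

variable {R : Type u} [CommRing R] [IsLocalRing R] [IsDomain R]

/-- **The Huneke–Wiegand property for towers.** -/
theorem hw_projective (V : Subring R) [IsDedekindDomain V]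
    (hV : Relation.ReflTransGen (MonoStep R) V ⊤)
    (M : Type*) [AddCommGroup M] [Module R M] [Module.Finite R M]
    (htf : ∀ (r : R) (m : M), r • m = 0 → r = 0 ∨ m = 0)
    (hT : ∀ (r : R) (z : Module.Dual R M ⊗[R] M), r • z = 0 → r = 0 ∨ z = 0) :
    Module.Projective R M := by
  obtain ⟨hproj, hfin⟩ := chain_finite V hV
  haveI : IsNoetherian V R := inferInstance
  haveI : IsNoetherianRing R := isNoetherian_of_tower V inferInstance
  obtain ⟨l, hls, hln⟩ := chain_frob V hV
  haveI : Module.Finite R (Module.Dual R M) := inferInstance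
  have hNtf : ∀ (r : R) (n : Module.Dual R M), r • n = 0 → r = 0 ∨ n = 0 := by
    intro r n hrn
    by_cases hr : r = 0
    · exact Or.inl hr
    · right
      ext m
      have := LinearMap.congr_fun hrn m
      rw [LinearMap.smul_apply, smul_eq_mul, LinearMap.zero_apply] at this
      exact (mul_eq_zero.1 this).resolve_left hr
  obtain ⟨I, _, f, s, a₀, ha₀, hs₀, hf₀, hf⟩ := exists_embedding (R := R) (N := Module.Dual R M) hNtf
  -- an element of `V` divisible by `a₀`
  haveI : Algebra.IsIntegral V R := Algebra.IsIntegral.of_finite V R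
  obtain ⟨a, ha, c, hc⟩ := ((Algebra.IsIntegral.isIntegral (R := V) a₀).isAlgebraic).exists_nonzero_dvd
    (mem_nonZeroDivisors_of_ne_zero ha₀)
  have hc' : (a : R) = c * a₀ := by rw [mul_comm]; exact hc
  have haR : (a : R) ≠ 0 := fun h => ha (Subtype.ext h)
  haveI hart : IsArtinianRing (V ⧸ Ideal.span {a}) := by
    refine artinian_quot _ (Or.inl ?_)
    rw [Ne, Ideal.span_singleton_eq_bot]
    exact ha
  let L := (I → R) ⧸ LinearMap.range f
  let π : (I → R) →ₗ[R] L := (LinearMap.range f).mkQ
  have hπ : Surjective π := Submodule.mkQ_surjective _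
  have hex : Exact f π := by
    intro y
    rw [Submodule.mkQ_apply, Submodule.Quotient.mk_eq_zero]
    rfl
  have haL : ∀ x : L, a • x = 0 := by
    intro x
    obtain ⟨y, rfl⟩ := hπ x
    change (a : R) • π y = 0
    rw [← map_smul]
    refine (hex _).2 ⟨c • s y, ?_⟩
    rw [map_smul, hf₀, smul_smul, hc']
  -- injectivity over `R`
  have hinj : Injective (LinearMap.rTensor M f) := by
    rw [injective_iff_map_eq_zero]
    intro z hz
    have h1 : a₀ • z = 0 := by
      have : LinearMap.rTensor M s (LinearMap.rTensor M f z) = a₀ • z := by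
        rw [← LinearMap.comp_apply, ← LinearMap.rTensor_comp]
        have : s ∘ₗ f = a₀ • LinearMap.id := LinearMap.ext hs₀
        rw [this, LinearMap.rTensor_smul, LinearMap.rTensor_id]
        rfl
      rw [← this, hz, map_zero]
    exact (hT a₀ z h1).resolve_left ha₀
  haveI : Module.Finite V M := Module.Finite.trans R M
  have hMV : Module.Projective V M := by
    apply projective_of_tf
    intro v y hy
    rcases htf (v : R) y hy with h | h
    · exact Or.inl (Subtype.ext h)
    · exact Or.inr h
  -- the pairing
  let β : Module.Dual R M →+ M →+ V :=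
    { toFun := fun n =>
        { toFun := fun m => l (n m)
          map_zero' := by rw [map_zero, map_zero]
          map_add' := fun x y => by rw [map_add, map_add] }
      map_zero' := by ext m; simp
      map_add' := fun x y => by ext m; simp }
  have hβ : ∀ n m, β n m = l (n m) := fun _ _ => rfl
  have hβV : ∀ (v : V) (n : Module.Dual R M) (m : M), β (v • n) m = v * β n m := by
    intro v n m
    rw [hβ, hβ]
    have : (v • n) m = v • n m := rfl
    rw [this, map_smul, smul_eq_mul]
  have hβR : ∀ (b : R) (n : Module.Dual R M) (m : M), β (b • n) m = β n (b • m) := by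
    intro b n m
    rw [hβ, hβ, map_smul, LinearMap.smul_apply]
  -- every `V`-functional on `M` comes from the dual
  have hdual : ∀ g : Module.Dual V M, ∃ n : Module.Dual R M, ∀ m, g m = l (n m) := by
    intro g
    have h1 : ∀ m : M, ∃ r : R, ∀ t : R, g (t • m) = l (r * t) := by
      intro m
      obtain ⟨r, hr⟩ := hls (g ∘ₗ ((LinearMap.toSpanSingleton R M m).restrictScalars V))
      exact ⟨r, hr⟩
    choose ψ hψ using h1
    have huniq : ∀ y y' : R, (∀ b, l (y * b) = l (y' * b)) → y = y' := by
      intro y y' hyy
      rw [← sub_eq_zero]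
      apply hln
      intro c
      rw [sub_mul, map_sub, hyy, sub_self]
    refine ⟨{ toFun := ψ, map_add' := ?_, map_smul' := ?_ }, ?_⟩
    · intro x y
      apply huniq
      intro b
      rw [← hψ, smul_add, map_add, hψ, hψ, add_mul, map_add]
    · intro r x
      apply huniq
      intro b
      rw [← hψ, smul_smul, hψ, RingHom.id_apply, smul_eq_mul]
      congr 1
      ring
    · intro m
      have := hψ m 1
      rwa [one_smul, mul_one] at this
  have hdual_uniq : ∀ n n' : Module.Dual R M, (∀ m, l (n m) = l (n' m)) → n = n' := by
    intro n n' hnn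
    ext m
    rw [← sub_eq_zero]
    apply hln
    intro t
    have := hnn (t • m)
    rw [n.map_smul, n'.map_smul, smul_eq_mul, smul_eq_mul] at this
    rw [sub_mul, map_sub, mul_comm (n m), mul_comm (n' m), this, sub_self]
  have hperf : ∀ ψ : Module.Dual R M →ₗ[V] V, ∃ m : M, ∀ n, ψ n = β n m := by
    intro ψ
    choose Θ hΘ using hdual
    let Θl : Module.Dual V M →ₗ[V] Module.Dual R M :=
      { toFun := Θ
        map_add' := by
          intro x y
          apply hdual_uniq
          intro m
          rw [← hΘ, LinearMap.add_apply, hΘ, hΘ, LinearMap.add_apply, map_add]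
        map_smul' := by
          intro v x
          apply hdual_uniq
          intro m
          rw [← hΘ, LinearMap.smul_apply, hΘ, RingHom.id_apply]
          exact (map_smul l v _).symm }
    obtain ⟨m, hm⟩ := (Module.evalEquiv V M).surjective (ψ ∘ₗ Θl)
    refine ⟨m, fun n => ?_⟩
    let g : Module.Dual V M := l ∘ₗ (n.restrictScalars V)
    have hg : Θ g = n := by
      apply hdual_uniq
      intro m
      rw [← hΘ]
      rfl
    have h1 := LinearMap.congr_fun hm g
    rw [Module.evalEquiv_apply, Module.Dual.eval_apply] at h1
    have h2 : (ψ ∘ₗ Θl) g = ψ (Θ g) := rfl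
    rw [h2, hg] at h1
    rw [← h1]
    rfl
  have hnd : ∀ m : M, (∀ n, β n m = 0) → m = 0 := by
    intro m hm
    rw [← Module.forall_dual_apply_eq_zero_iff V m]
    intro g
    obtain ⟨n, hn⟩ := hdual g
    rw [hn]
    exact hm n
  have hchain := chain (M := M) f π V hπ hex a haL hart (fun x hx => nil_mod V a x hx) (c • s)
    (fun n => by rw [LinearMap.smul_apply, hs₀, smul_smul, hc'])
    (fun v hv m hm => (htf (v : R) m hm).resolve_left (fun h => hv (Subtype.ext h)))
    β hβV hβR hperf hnd V hV le_rfl
  exact proj_top (hchain.2.2 (fun _ => hMV) (inj_top f hinj))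

end Main

end Pool.Agent.TH488.HW
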